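import Pool.Agent.N463.MI.Stm

/-!
# Cauchy coefficient formula on the circle

Project MI (helper463), part A02 (helper507).
-/

set_option autoImplicit false
set_option linter.all false

noncomputable section

namespace Pool.Agent.N507.MI

open Pool.Agent.N463.MI MeasureTheory

theorem pt_pow (t θ : ℝ) (m : ℕ) :
    pt t θ ^ m = Complex.exp (-((m : ℂ) * t)) * Complex.exp ((m : ℂ) * θ * Complex.I) := by
  rw [pt, ← Complex.exp_nat_mul, ← Complex.exp_add]
  congr 1
  ring

theorem norm_pt (t θ : ℝ) : ‖pt t θ‖ = Real.exp (-t) := by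
  rw [pt, Complex.norm_exp]
  congr 1
  simp

theorem int_exp (k : ℤ) : (∫ θ in (-Real.pi)..Real.pi, Complex.exp ((k : ℂ) * θ * Complex.I)) =
    if k = 0 then 2 * (Real.pi : ℂ) else 0 := by
  by_cases hk : k = 0
  · rw [if_pos hk, hk]
    simp only [Int.cast_zero, zero_mul, Complex.exp_zero, intervalIntegral.integral_const]
    rw [sub_neg_eq_add, Complex.real_smul, mul_one]
    push_cast
    ring
  · rw [if_neg hk]
    have hc : ((k : ℂ) * Complex.I) ≠ 0 := mul_ne_zero (by exact_mod_cast hk) Complex.I_ne_zero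
    have e1 : ∀ θ : ℝ, Complex.exp ((k : ℂ) * θ * Complex.I) =
        Complex.exp ((k : ℂ) * Complex.I * θ) := fun θ => by congr 1; ring
    simp only [e1]
    rw [integral_exp_mul_complex hc]
    have e2 : Complex.exp ((k : ℂ) * Complex.I * (Real.pi : ℂ)) =
        Complex.exp ((k : ℂ) * Complex.I * ((-Real.pi : ℝ) : ℂ)) := by
      have e3 : (k : ℂ) * Complex.I * (Real.pi : ℂ) =
          (k : ℂ) * Complex.I * ((-Real.pi : ℝ) : ℂ) + (k : ℂ) * (2 * Real.pi * Complex.I) := by
        push_cast
        ring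
      rw [e3, Complex.exp_add, Complex.exp_int_mul_two_pi_mul_I, mul_one]
    rw [e2, sub_self, zero_div]

theorem t_A02 (h : A02a) : A02 := by
  intro a t ht
  have hlt : ∀ θ : ℝ, ‖pt t θ‖ < 1 := fun θ => by
    rw [norm_pt, Real.exp_lt_one_iff]
    linarith
  have hF : ∀ θ : ℝ, FF (a : ℝ) (pt t θ) = ∑' n : ℕ, ((cc a n : ℤ) : ℂ) * pt t θ ^ n :=
    fun θ => (h a _ (hlt θ)).2.symm
  set b : ℕ → ℝ := fun n => ‖((cc a n : ℤ) : ℂ) * pt t 0 ^ n‖ with hb
  have hbs : Summable b := (h a _ (hlt 0)).1
  have hbn : ∀ (n : ℕ) (θ : ℝ), ‖((cc a n : ℤ) : ℂ) * pt t θ ^ n‖ = b n := by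
    intro n θ
    simp only [hb, norm_mul, norm_pow, norm_pt]
  have hcp : Continuous fun θ : ℝ => pt t θ := by
    unfold pt
    fun_prop
  refine ⟨?_, fun n => ?_⟩
  · simp only [hF]
    exact continuous_tsum (fun n => continuous_const.mul (hcp.pow n)) hbs
      fun n θ => (hbn n θ).le
  · have hS : HasSum (fun m : ℕ => ∫ θ in (-Real.pi)..Real.pi,
        ((cc a m : ℤ) : ℂ) * pt t θ ^ m * Complex.exp (-((n : ℂ) * (θ : ℂ) * Complex.I)))
        (∫ θ in (-Real.pi)..Real.pi,
          FF (a : ℝ) (pt t θ) * Complex.exp (-((n : ℂ) * (θ : ℂ) * Complex.I))) := by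
      refine intervalIntegral.hasSum_integral_of_dominated_convergence (fun m _ => b m) ?_ ?_ ?_
        ?_ ?_
      · intro m
        refine Continuous.aestronglyMeasurable ?_
        refine (continuous_const.mul (hcp.pow m)).mul ?_
        fun_prop
      · intro m
        refine Filter.Eventually.of_forall fun θ _ => ?_
        rw [norm_mul, hbn]
        have e : ‖Complex.exp (-((n : ℂ) * (θ : ℂ) * Complex.I))‖ = 1 := by
          rw [Complex.norm_exp]
          simp
        rw [e, mul_one]
      · exact Filter.Eventually.of_forall fun θ _ => hbs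
      · exact intervalIntegrable_const
      · refine Filter.Eventually.of_forall fun θ _ => ?_
        rw [hF]
        exact ((h a _ (hlt θ)).1.of_norm.hasSum).mul_right _
    have hv : ∀ m : ℕ, (∫ θ in (-Real.pi)..Real.pi,
        ((cc a m : ℤ) : ℂ) * pt t θ ^ m * Complex.exp (-((n : ℂ) * (θ : ℂ) * Complex.I))) =
        ((cc a m : ℤ) : ℂ) * Complex.exp (-((m : ℂ) * t)) *
          (if ((m : ℤ) - n) = 0 then 2 * (Real.pi : ℂ) else 0) := by
      intro m
      rw [← int_exp, ← intervalIntegral.integral_const_mul]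
      congr 1
      ext θ
      have e : Complex.exp ((((m : ℤ) - n : ℤ) : ℂ) * θ * Complex.I) =
          Complex.exp ((m : ℂ) * θ * Complex.I) *
            Complex.exp (-((n : ℂ) * (θ : ℂ) * Complex.I)) := by
        rw [← Complex.exp_add]
        congr 1
        push_cast
        ring
      rw [pt_pow, e]
      ring
    simp only [hv] at hS
    have hS' := hasSum_single (f := fun m : ℕ => ((cc a m : ℤ) : ℂ) * Complex.exp (-((m : ℂ) * t)) *
      (if ((m : ℤ) - n) = 0 then 2 * (Real.pi : ℂ) else 0)) n (by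
        intro m hm
        rw [if_neg, mul_zero]
        intro h0
        exact hm (by omega))
    rw [hS.unique hS', if_pos (sub_self _)]
    push_cast
    ring

end Pool.Agent.N507.MI
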